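import Pool.Agent.H30.VX.Targets

/-!
# Row ALT of vex_modules: a path through given vertices with one private vertex between any two
-/

set_option autoImplicit false

namespace Pool.Agent.H99.VX

open Finset Pool.Agent.H48.CE Pool.Agent.H30.VR Pool.Agent.H30.VX

open scoped Classical in
theorem alt_aux {V : Type} (G : SimpleGraph V) (B : Finset V) (y : V) (hs : List V) :
    ∀ (Z : Finset V) (x : V) (c : ℕ), (x :: (hs ++ [y])).Nodup →
      (∀ h ∈ x :: (hs ++ [y]), h ∈ B → h ∈ Z) →
      (∀ h ∈ x :: (hs ++ [y]), ∀ h' ∈ x :: (hs ++ [y]), h ≠ h' →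
        c ≤ ((cn G B h h').filter (fun v => v ∉ Z)).card) → hs.length + 1 ≤ c →
      ∃ l : List V, l.length = 2 * hs.length + 1 ∧ Pt G x l y ∧
        ∀ v ∈ l, v ∈ hs ∨ (v ∈ B ∧ v ∉ Z) := by
  induction hs with
  | nil =>
    intro Z x c hnd hBZ hc hl
    have hxy : x ≠ y := by
      intro h
      rw [h] at hnd
      simp at hnd
    have h1 : 0 < ((cn G B x y).filter (fun v => v ∉ Z)).card := by
      have := hc x (by simp) y (by simp) hxy
      simp only [List.length_nil] at hl
      omega
    obtain ⟨b, hb⟩ := Finset.card_pos.1 h1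
    rw [mem_filter, mem_cn] at hb
    obtain ⟨⟨hbB, hxb, hyb⟩, hbZ⟩ := hb
    have hxb' : x ≠ b := fun h => hbZ (hBZ b (by simp [h]) hbB)
    have hyb' : b ≠ y := fun h => hbZ (hBZ b (by simp [h]) hbB)
    refine ⟨[b], by simp, ⟨?_, ?_⟩, ?_⟩
    · simp only [List.cons_append, List.nil_append, List.nodup_cons, List.mem_cons,
        List.not_mem_nil, or_false, not_or, not_false_eq_true, List.nodup_nil, and_true]
      exact ⟨⟨hxb', hxy⟩, hyb'⟩
    · simp only [List.cons_append, List.nil_append, List.isChain_cons_cons,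
        List.isChain_singleton, and_true]
      exact ⟨hxb, hyb.symm⟩
    · intro v hv
      rw [List.mem_singleton] at hv
      rw [hv]
      exact Or.inr ⟨hbB, hbZ⟩
  | cons h hs ih =>
    intro Z x c hnd hBZ hc hl
    rw [List.length_cons] at hl
    have hmem : ∀ v, v ∈ h :: (hs ++ [y]) → v ∈ x :: (h :: hs ++ [y]) := by
      intro v hv
      exact List.mem_cons_of_mem _ hv
    have hnd' : x ∉ h :: (hs ++ [y]) ∧ (h :: (hs ++ [y])).Nodup := List.nodup_cons.1 hnd
    have hxh : x ≠ h := fun e => hnd'.1 (by rw [e]; exact List.mem_cons_self)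
    have h1 : 0 < ((cn G B x h).filter (fun v => v ∉ Z)).card := by
      have := hc x List.mem_cons_self h (hmem h List.mem_cons_self) hxh
      omega
    obtain ⟨b, hb⟩ := Finset.card_pos.1 h1
    rw [mem_filter, mem_cn] at hb
    obtain ⟨⟨hbB, hxb, hhb⟩, hbZ⟩ := hb
    have hbn : ∀ v ∈ x :: (h :: hs ++ [y]), v ≠ b := by
      intro v hv e
      exact hbZ (hBZ b (e ▸ hv) hbB)
    obtain ⟨l, hl1, hl2, hl3⟩ := ih (insert b Z) h (c - 1) hnd'.2
      (fun v hv hvB => mem_insert_of_mem (hBZ v (hmem v hv) hvB))
      (by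
        intro u hu v hv huv
        have h2 := hc u (hmem u hu) v (hmem v hv) huv
        have h3 : (cn G B u v).filter (fun w => w ∉ insert b Z) =
            ((cn G B u v).filter (fun w => w ∉ Z)).erase b := by
          ext w
          rw [mem_erase, mem_filter, mem_filter, mem_insert, not_or]
          tauto
        rw [h3]
        have h4 := Finset.pred_card_le_card_erase (s := (cn G B u v).filter (fun w => w ∉ Z))
          (a := b)
        omega)
      (by omega)
    refine ⟨b :: h :: l, ?_, ⟨?_, ?_⟩, ?_⟩
    · simp only [List.length_cons]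
      omega
    · have e1 : x :: (b :: h :: l ++ [y]) = x :: b :: (h :: (l ++ [y])) := rfl
      rw [e1, List.nodup_cons, List.nodup_cons]
      have hxl : x ∉ l := by
        intro hx
        rcases hl3 x hx with h5 | ⟨h5, h6⟩
        · exact hnd'.1 (List.mem_cons_of_mem _ (List.mem_append_left _ h5))
        · exact h6 (mem_insert_of_mem (hBZ x List.mem_cons_self h5))
      have hbl : b ∉ l := by
        intro hx
        rcases hl3 b hx with h5 | ⟨h5, h6⟩
        · exact hbn b (hmem b (List.mem_cons_of_mem _ (List.mem_append_left _ h5))) rfl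
        · exact h6 (mem_insert_self _ _)
      have hy : y ∈ h :: (hs ++ [y]) :=
        List.mem_cons_of_mem _ (List.mem_append_right _ (List.mem_singleton.2 rfl))
      refine ⟨?_, ?_, hl2.1⟩
      · rw [List.mem_cons, List.mem_cons, List.mem_append, List.mem_singleton]
        rintro (e | e | e | e)
        · exact hbn x List.mem_cons_self e
        · exact hxh e
        · exact hxl e
        · exact hnd'.1 (e ▸ hy)
      · rw [List.mem_cons, List.mem_append, List.mem_singleton]
        rintro (e | e | e)
        · exact hbn h (hmem h List.mem_cons_self) e.symm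
        · exact hbl e
        · exact hbn y (hmem y hy) e.symm
    · have e1 : x :: (b :: h :: l ++ [y]) = x :: b :: (h :: (l ++ [y])) := rfl
      rw [e1, List.isChain_cons_cons, List.isChain_cons_cons]
      exact ⟨hxb, hhb.symm, hl2.2⟩
    · intro v hv
      rw [List.mem_cons, List.mem_cons] at hv
      rcases hv with e | e | e
      · rw [e]
        exact Or.inr ⟨hbB, hbZ⟩
      · rw [e]
        exact Or.inl List.mem_cons_self
      · rcases hl3 v e with h5 | ⟨h5, h6⟩
        · exact Or.inl (List.mem_cons_of_mem _ h5)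
        · exact Or.inr ⟨h5, fun h7 => h6 (mem_insert_of_mem h7)⟩

theorem pf_ALT : T_ALT := by
  intro V G B Z x y hs c hnd hBZ hc hl
  exact alt_aux G B y hs Z x c hnd hBZ hc hl

end Pool.Agent.H99.VX
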