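import Pool.Agent.H30.VX.Targets

/-!
# Row WG2 of vex_modules: many light pairs give two sets without heavy pairs
(adapted from row WGT of ver_modules)
-/

set_option autoImplicit false

namespace Pool.Agent.H99.VX

open Finset Pool.Agent.H48.CE Pool.Agent.H30.VR Pool.Agent.H30.VX

theorem pf_WG2 (hHLF : T_HLF) : T_WG2 := by
  classical
  intro V _ G ε k w hε hε1 hk hV hw hlight
  set Lp : Finset (V × V) := (univ ×ˢ univ : Finset (V × V)).filter
      (fun p => G.Adj p.1 p.2 ∧ w p.1 + w p.2 < 1 - ε) with hLp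
  have hlight' : ε * k * Fintype.card V ≤ (Lp.card : ℝ) := by
    have e1 : lt G w (1 - ε) = Lp.card := by
      rw [hLp]
      unfold lt
      congr 1
    rw [e1] at hlight
    exact hlight
  set n : ℝ := (Fintype.card V : ℝ) with hn
  have hn0 : 0 < n := by rw [hn]; exact_mod_cast hV
  set J : ℕ := ⌈2 / ε⌉₊ with hJ
  have hJ1 : 2 / ε ≤ J := Nat.le_ceil _
  have hJ2 : (J : ℝ) ≤ 3 / ε := by
    have h1 : (J : ℝ) < 2 / ε + 1 := Nat.ceil_lt_add_one (by positivity)
    have h2 : 1 ≤ 1 / ε := by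
      rw [le_div_iff₀ hε]
      linarith
    have h3 : 3 / ε = 2 / ε + 1 / ε := by ring
    linarith
  set cl : V → ℕ := fun v => ⌊2 * w v / ε⌋₊ with hcl
  have hcl1 : ∀ v, (cl v : ℝ) * (ε / 2) ≤ w v := by
    intro v
    have h1 : (cl v : ℝ) ≤ 2 * w v / ε := Nat.floor_le (by
      have := hw v
      positivity)
    rw [le_div_iff₀ hε] at h1
    linarith
  have hcl2 : ∀ v, w v < ((cl v : ℝ) + 1) * (ε / 2) := by
    intro v
    have h1 : 2 * w v / ε < (cl v : ℝ) + 1 := Nat.lt_floor_add_one _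
    rw [div_lt_iff₀ hε] at h1
    linarith
  have hclJ : ∀ v, w v < 1 → cl v < J := by
    intro v hv
    have h1 := hcl1 v
    have h2 : (cl v : ℝ) < J := by
      have h3 : (cl v : ℝ) * ε < 2 := by linarith
      have h4 : (cl v : ℝ) < 2 / ε := by
        rw [lt_div_iff₀ hε]
        exact h3
      linarith
    exact_mod_cast h2
  set b : ℝ := ε ^ 3 / 9 * k * n with hb
  have hb0 : 0 < b := by positivity
  have hpig : ∃ y ∈ (range J ×ˢ range J), b ≤ ((Lp.filter (fun p => (cl p.1, cl p.2) = y)).card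
      : ℝ) := by
    refine Finset.exists_le_card_fiber_of_nsmul_le_card_of_maps_to ?_ ?_ ?_
    · intro p hp
      have hp' := (mem_filter.1 hp).2.2
      have h1 := hw p.1
      have h2 := hw p.2
      rw [mem_product, mem_range, mem_range]
      exact ⟨hclJ _ (by linarith), hclJ _ (by linarith)⟩
    · have : 0 < J := by
        have h1 : 0 < 2 / ε := by positivity
        have h2 : (0 : ℝ) < J := by linarith
        exact_mod_cast h2
      exact ⟨(0, 0), by rw [mem_product, mem_range]; exact ⟨this, this⟩⟩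
    · rw [card_product, card_range, nsmul_eq_mul]
      push_cast
      have h1 : (J : ℝ) * J ≤ 3 / ε * (3 / ε) :=
        mul_le_mul hJ2 hJ2 (Nat.cast_nonneg _) (by positivity)
      refine le_trans (mul_le_mul_of_nonneg_right h1 hb0.le) (le_trans (le_of_eq ?_) hlight')
      rw [hb]
      field_simp
      ring
  obtain ⟨⟨i, j⟩, _, hij⟩ := hpig
  set Vi : Finset V := univ.filter (fun v => cl v = i) with hVi
  set Vj : Finset V := univ.filter (fun v => cl v = j) with hVj
  have hee2 : b ≤ ee G Vi Vj := by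
    refine le_trans hij ?_
    rw [ee_eq_card]
    refine Nat.cast_le.2 (Finset.card_le_card (fun p hp => ?_))
    obtain ⟨hp1, hp2⟩ := mem_filter.1 hp
    have hp3 := (mem_filter.1 hp1).2.1
    rw [Prod.mk.injEq] at hp2
    rw [mem_filter, mem_product, hVi, hVj, mem_filter, mem_filter]
    exact ⟨⟨⟨mem_univ _, hp2.1⟩, mem_univ _, hp2.2⟩, hp3⟩
  have hsumlt : ∀ x ∈ Vi, ∀ y ∈ Vj, w x + w y < 1 := by
    intro x hx y hy
    have hne : (Lp.filter (fun p => (cl p.1, cl p.2) = (i, j))).Nonempty := by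
      rw [← Finset.card_pos]
      have : (0 : ℝ) < ((Lp.filter (fun p => (cl p.1, cl p.2) = (i, j))).card : ℝ) := by
        linarith
      exact_mod_cast this
    obtain ⟨p, hp⟩ := hne
    obtain ⟨hp1, hp2⟩ := mem_filter.1 hp
    have hp3 := (mem_filter.1 hp1).2.2
    rw [Prod.mk.injEq] at hp2
    have h1 := hcl1 p.1
    have h2 := hcl1 p.2
    rw [hp2.1] at h1
    rw [hp2.2] at h2
    have h3 := hcl2 x
    have h4 := hcl2 y
    rw [(mem_filter.1 hx).2] at h3
    rw [(mem_filter.1 hy).2] at h4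
    linarith
  by_cases hne : i = j
  · subst hne
    obtain ⟨X, hX, Y, hY, hXY, h4⟩ := hHLF G Vi
    refine ⟨X, Y, hXY, ?_, fun x hx y hy => hsumlt x (hX hx) y (hY hy)⟩
    have h5 : (ee G Vi Vi : ℝ) ≤ 4 * ee G X Y := by exact_mod_cast h4
    have h6 : ε ^ 3 / 100 * k * n < ε ^ 3 / 36 * k * n := by
      have : 0 < ε ^ 3 * k * n := by positivity
      linarith
    rw [hb] at hee2
    linarith
  · refine ⟨Vi, Vj, ?_, ?_, hsumlt⟩
    · intro v hv hv'
      rw [hVi, mem_filter] at hv
      rw [hVj, mem_filter] at hv'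
      exact hne (hv.2.symm.trans hv'.2)
    · have h6 : ε ^ 3 / 100 * k * n < ε ^ 3 / 9 * k * n := by
        have : 0 < ε ^ 3 * k * n := by positivity
        linarith
      rw [hb] at hee2
      linarith

end Pool.Agent.H99.VX
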